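import Pool.Agent.Work.MP_499dc6_lc.CD.Defs

/-!
# Constant depth circuits for the permanent: statements of the items
-/

namespace Pool.Agent.Work.MP_499dc6_lc.CD

open MvPolynomial

/-! ## Bihomogeneous polynomials -/

def S_BiMul : Prop :=
  ∀ (Y Z : Type) [Fintype Y] [Fintype Z] (R : Type) [CommSemiring R]
    (g h : MvPolynomial (Y ⊕ Z) R) (x y x' y' : ℕ),
    IsBi g x y → IsBi h x' y' → IsBi (g * h) (x + x') (y + y')

def S_BiHom : Prop :=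
  ∀ (Y Z : Type) [Fintype Y] [Fintype Z] (R : Type) [CommSemiring R]
    (g : MvPolynomial (Y ⊕ Z) R) (x y : ℕ), IsBi g x y → g.IsHomogeneous (x + y)

def S_BiDec : Prop :=
  ∀ (Y Z : Type) [Fintype Y] [Fintype Z] (R : Type) [CommSemiring R]
    (f : MvPolynomial (Y ⊕ Z) R) (k : ℕ), f.IsHomogeneous k →
    ∃ c : ℕ → MvPolynomial (Y ⊕ Z) R, (∀ u, u ≤ k → IsBi (c u) u (k - u)) ∧
      f = ∑ u ∈ Finset.range (k + 1), c u

/-! ## Closure properties of `BB` -/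

def S_BBnn : Prop :=
  ∀ (Y Z : Type) [Fintype Y] [Fintype Z] (K : Type) [Field K] (al be : ℝ)
    (f : MvPolynomial (Y ⊕ Z) K) (c : ℝ), BB al be f c → 0 ≤ c

def S_BBsmul : Prop :=
  ∀ (Y Z : Type) [Fintype Y] [Fintype Z] (K : Type) [Field K] (al be : ℝ)
    (f : MvPolynomial (Y ⊕ Z) K) (c : ℝ) (a : K), BB al be f c → BB al be (C a * f) c

def S_BBmul : Prop :=
  ∀ (Y Z : Type) [Fintype Y] [Fintype Z] (K : Type) [Field K] (al be : ℝ)
    (f f' : MvPolynomial (Y ⊕ Z) K) (c c' : ℝ),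
    BB al be f c → BB al be f' c' → BB al be (f * f') (c * c')

def S_BBone : Prop :=
  ∀ (Y Z : Type) [Fintype Y] [Fintype Z] (K : Type) [Field K] (al be : ℝ),
    BB al be (1 : MvPolynomial (Y ⊕ Z) K) 1

def S_BBhc : Prop :=
  ∀ (Y Z : Type) [Fintype Y] [Fintype Z] (K : Type) [Field K] (al be : ℝ)
    (f : MvPolynomial (Y ⊕ Z) K) (c : ℝ) (k : ℕ), BB al be f c →
    BB al be (homogeneousComponent k f) c

def S_BBphi : Prop :=
  ∀ (Y Z : Type) [Fintype Y] [Fintype Z] (K : Type) [Field K] (al be : ℝ)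
    (f : MvPolynomial (Y ⊕ Z) K) (k : ℕ), f.IsHomogeneous k → BB al be f (phi al be k)

/-! ## The matrix -/

def S_MatMul : Prop :=
  ∀ (Y Z : Type) [Fintype Y] [Fintype Z] [DecidableEq Y] [DecidableEq Z] (R : Type)
    [CommSemiring R] (g h : MvPolynomial (Y ⊕ Z) R) (x y p1 q p' q' : ℕ), IsBi g x y →
    mat (g * h) (p1 + x) q p' q' = mat h p1 (q + y) p' q' * mat g (p1 + x) q p1 (q + y)

def S_MatZero : Prop :=
  ∀ (Y Z : Type) [Fintype Y] [Fintype Z] [DecidableEq Y] [DecidableEq Z] (R : Type)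
    [CommSemiring R] (f : MvPolynomial (Y ⊕ Z) R) (x y L l a b : ℕ), IsBi f x y →
    (x, y) ≠ (a, b) → mat f (L + a) l L (l + b) = 0

def S_Grow1 : Prop :=
  ∀ (N p x : ℕ), 1 ≤ N → (TT N p : ℝ) ≤ TT N (p + x) * (((p + x : ℕ) : ℝ) / (N + (p + x) - 1)) ^ x

def S_Grow2 : Prop :=
  ∀ (N q y : ℕ), 1 ≤ N → (TT N (q + y) : ℝ) ≤ TT N q * (((N : ℝ) + q) / (q + 1)) ^ y

def S_BBrank : Prop :=
  ∀ (Y Z : Type) [Fintype Y] [Fintype Z] [DecidableEq Y] [DecidableEq Z] [Nonempty Y]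
    [Nonempty Z] (K : Type) [Field K] (al be : ℝ) (f : MvPolynomial (Y ⊕ Z) K) (c : ℝ)
    (L l a b : ℕ), 1 ≤ L + a →
    Real.exp al ≤ ((Fintype.card Y : ℝ) + (L + a) - 1) / (L + a) →
    ((Fintype.card Z : ℝ) + l) / (l + 1) ≤ Real.exp be → BB al be f c →
    ((mat f (L + a) l L (l + b)).rank : ℝ) ≤ (TT (Fintype.card Y) (L + a) : ℝ) *
      TT (Fintype.card Z) l * Real.exp (-((a : ℝ) * al - b * be) / 2) * c

/-- Lower bound for the rank, border version. -/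
def S_RankLow : Prop :=
  ∀ (Y Z : Type) [Fintype Y] [Fintype Z] [DecidableEq Y] [DecidableEq Z]
    (k : Type) [Field k] (P R : MvPolynomial (Y ⊕ Z) (PowerSeries k)) (p q p' q' : ℕ)
    (I : Type) [Fintype I] [DecidableEq I] (r : I → Mon Y p' × Mon Z q')
    (c : I → Mon Y p × Mon Z q), (mat P p q p' q').submatrix r c = 1 →
    Fintype.card I ≤ (mat (MvPolynomial.map (algebraMap (PowerSeries k) (LaurentSeries k))
      (P + C PowerSeries.X * R)) p q p' q').rank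

/-! ## Series -/

def S_Span : Prop :=
  ∀ (K : Type) [Field K] [CharZero K] (A : Type) [CommRing A] [Algebra K A] (v w : ℕ → A),
    v 0 = 1 → w 0 = 0 →
    (∀ k : ℕ, (k : A) * v k = ∑ p ∈ Finset.HasAntidiagonal.antidiagonal k, w p.1 * v p.2) →
    ∀ k, 1 ≤ k → w k ∈ PS K v k ∧ v k ∈ PS K w k

def S_HcMul : Prop :=
  ∀ (σ : Type) (R : Type) [CommRing R] (f g : MvPolynomial σ R) (k : ℕ),
    homogeneousComponent k (f * g) =
      ∑ p ∈ Finset.HasAntidiagonal.antidiagonal k, homogeneousComponent p.1 f * homogeneousComponent p.2 g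

/-- Logarithmic derivative: additivity. -/
def S_LogDer : Prop :=
  ∀ (σ : Type) (K : Type) [Field K] (J : Type) [Fintype J] (v : J → MvPolynomial σ K)
    (k : J → ℕ), (∀ j, constantCoeff (v j) = 1) →
    ∃ w : J → ℕ → MvPolynomial σ K, (∀ j, w j 0 = 0) ∧
      (∀ j i, (w j i).IsHomogeneous i) ∧
      (∀ j (i : ℕ), (i : MvPolynomial σ K) * homogeneousComponent i (v j) =
        ∑ p ∈ Finset.HasAntidiagonal.antidiagonal i, w j p.1 * homogeneousComponent p.2 (v j)) ∧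
      (∀ i : ℕ, (i : MvPolynomial σ K) * homogeneousComponent i (∏ j, v j ^ k j) =
        ∑ p ∈ Finset.HasAntidiagonal.antidiagonal i, (∑ j, (k j : MvPolynomial σ K) * w j p.1) *
          homogeneousComponent p.2 (∏ j, v j ^ k j))

def S_Part : Prop :=
  ∀ (k : ℕ) (e : ℝ), 0 < e → (Fintype.card (Nat.Partition k) : ℝ) ≤ Real.exp (e * k + 4 / e ^ 2)

def S_SpanBB : Prop :=
  ∀ (Y Z : Type) [Fintype Y] [Fintype Z] (K : Type) [Field K] (al be : ℝ)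
    (v : ℕ → MvPolynomial (Y ⊕ Z) K) (f : MvPolynomial (Y ⊕ Z) K) (lam : ℝ) (k : ℕ),
    0 < lam → (∀ i, 1 ≤ i → BB al be (v i) (Real.exp (-(lam * i)))) → f ∈ PS K v k →
    BB al be f (Real.exp (16 / lam ^ 2 - lam / 2 * k))

/-- Product gates. -/
def S_Prod : Prop :=
  ∀ (Y Z : Type) [Fintype Y] [Fintype Z] (K : Type) [Field K] [CharZero K] (al be : ℝ)
    (J : Type) [Fintype J] (v : J → MvPolynomial (Y ⊕ Z) K) (m : J → ℕ) (lam : ℝ),
    0 < lam → (∀ j, m j ≠ 0 → constantCoeff (v j) ≠ 0) →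
    (∀ j, m j ≠ 0 → ∀ k, 1 ≤ k →
      BB al be (homogeneousComponent k (v j)) (Real.exp (-(lam * k)))) →
    ∃ w : ℕ → MvPolynomial (Y ⊕ Z) K, (∀ k, (w k).IsHomogeneous k) ∧
      (∀ k, 1 ≤ k → BB al be (w k)
        ((Fintype.card J : ℝ) * Real.exp (16 / lam ^ 2 - lam / 2 * k))) ∧
      (∀ k, 1 ≤ k → homogeneousComponent k (∏ j, v j ^ m j) ∈ PS K w k)

/-! ## Real numbers -/

def S_Phi : Prop :=
  ∀ (al : ℝ) (k : ℕ), 10 ≤ al → 1 ≤ k → (k : ℝ) ≤ Real.exp (al / 2) →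
    phi al (√2 * al) k ≤ Real.exp (-(al / (6 * k)))

def S_Step : Prop :=
  ∀ (al sg lm : ℝ) (k : ℕ), 10 ≤ al → 1 ≤ sg → 0 < lm → lm ≤ 1 → 1 ≤ k →
    2 * sg / lm ≤ Real.exp (al / 2) →
    phi al (√2 * al) k ≤ Real.exp (-(lm ^ 2 / (4 * sg ^ 2) * k)) ∨
      Real.exp (sg - lm * k) ≤ Real.exp (-(lm ^ 2 / (4 * sg ^ 2) * k))

def S_RcBound : Prop :=
  ∀ (G : ℝ) (j : ℕ), 1 ≤ G → G ≤ (rc G j).1 ∧ 0 < (rc G j).2 ∧ (rc G j).2 ≤ 1 ∧
    (rc G j).1 ≤ (257 * G) ^ (8 ^ j) ∧ 1 / (rc G j).2 ≤ (257 * G) ^ (8 ^ j)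

def S_RcMono : Prop :=
  ∀ (G : ℝ) (i j : ℕ), 1 ≤ G → i ≤ j → (rc G i).1 ≤ (rc G j).1 ∧ (rc G j).2 ≤ (rc G i).2

/-! ## Circuits -/

/-- Upper bound for all gates of a circuit. -/
def S_Circ : Prop :=
  ∀ (Y Z : Type) [Fintype Y] [Fintype Z] (K : Type) [Field K] [CharZero K] (al G : ℝ) (s D : ℕ)
    (F : Fin s → MvPolynomial (Y ⊕ Z) K) (d : Fin s → ℕ), 10 ≤ al →
    IsCircuit 3 F d → (∀ i, d i ≤ D) → (∀ i, F i ≠ 0 → constantCoeff (F i) ≠ 0) →
    G = Real.log (s + 1) + 3 → 2 * ((257 * G) ^ (8 ^ (2 * D))) ^ 2 ≤ Real.exp (al / 2) →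
    ∀ i, ∀ k, 1 ≤ k → BB al (√2 * al) (homogeneousComponent k (F i))
      (Real.exp ((rc G (2 * D)).1 - (rc G (2 * D)).2 * k))

/-- Substitution of polynomials of degree at most `e` into a circuit. -/
def S_CircSubst : Prop :=
  ∀ (σ τ : Type) (K : Type) [Field K] (s e : ℕ) (F : Fin s → MvPolynomial σ K) (d : Fin s → ℕ)
    (θ : σ → MvPolynomial τ K), IsCircuit 1 F d → (∀ i, (θ i).totalDegree ≤ e) →
    IsCircuit e (fun i => aeval θ (F i)) d

/-- Generic translation with constants from the small field. -/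
def S_Transl : Prop :=
  ∀ (σ : Type) [Fintype σ] (k : Type) [Field k] [CharZero k] (s : ℕ)
    (F : Fin s → MvPolynomial σ (LaurentSeries k)),
    ∃ x : σ → k, ∀ i, F i ≠ 0 →
      constantCoeff (aeval (fun j => (X j + C (algebraMap (PowerSeries k) (LaurentSeries k)
        (PowerSeries.C (x j))) : MvPolynomial σ (LaurentSeries k))) (F i)) ≠ 0

/-- Translation does not change the top homogeneous component. -/
def S_TransTop : Prop :=
  ∀ (σ : Type) (R : Type) [CommRing R] (P : MvPolynomial σ R) (k : ℕ) (x : σ → R),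
    P.IsHomogeneous k →
    homogeneousComponent k (aeval (fun j => (X j + C (x j) : MvPolynomial σ R)) P) = P

/-! ## The hard polynomial -/

/-- Many isolated ones in the matrix of a polynomial whose monomials form a code. -/
def S_Conf : Prop :=
  ∀ (Y Z : Type) [Fintype Y] [Fintype Z] [DecidableEq Y] [DecidableEq Z] [Nonempty Y]
    [Nonempty Z] (R : Type) [CommSemiring R] (ι : Type) [Fintype ι] [DecidableEq ι]
    (μ : ι → (Y →₀ ℕ)) (ν : ι → (Z →₀ ℕ)) (a b L l : ℕ) (η : ℝ),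
    (∀ c i, μ c i ≤ 1) → (∀ c j, ν c j ≤ 1) → (∀ c, ∑ i, μ c i = a) → (∀ c, ∑ j, ν c j = b) →
    (∀ c, ∑ c' ∈ Finset.univ.erase c, ((L : ℝ) / (Fintype.card Y + L - 1)) ^
      (∑ i, (μ c' i - μ c i)) ≤ η) →
    (∀ c, ∑ c' ∈ Finset.univ.erase c, ((l : ℝ) / (Fintype.card Z + l - 1)) ^
      (∑ j, (ν c' j - ν c j)) ≤ η) →
    ∃ (I : Type) (_ : Fintype I) (_ : DecidableEq I) (r : I → Mon Y L × Mon Z (l + b))
      (c : I → Mon Y (L + a) × Mon Z l),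
      (mat (∑ c : ι, monomial (Finsupp.sumElim (μ c) (ν c)) (1 : R)) (L + a) l L
        (l + b)).submatrix r c = 1 ∧
      (1 - 2 * η) * (Fintype.card ι * TT (Fintype.card Y) L * TT (Fintype.card Z) l) ≤
        Fintype.card I

/-- Sums over walks. -/
def S_Walk : Prop :=
  ∀ (m n : ℕ) (z0 : Fin n) (s : Walk m n z0) (w : ℕ → ℝ) (ε : ℝ), 0 ≤ ε →
    (∀ i, 0 ≤ w i) → (∀ i, w i ≤ 1) →
    (∀ j k, j < k → k < m → (n : ℝ) ^ (k - j) * ∏ i ∈ Finset.Icc j k, w i ≤ ε) →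
    ∑ s' : Walk m n z0, ∏ i : Fin m,
      (if s'.1 i.castSucc = s.1 i.castSucc ∧ s'.1 i.succ = s.1 i.succ then (1 : ℝ) else w i) ≤
      Real.exp ((m : ℝ) ^ 2 * ε)

/-- Spread of the `Y` positions. -/
def S_Tau : Prop :=
  ∀ (m j k : ℕ), j ≤ k → k < m →
    √2 * ((k : ℝ) + 1 - j) - 1 ≤
      ∑ i ∈ Finset.Icc j k, ((Finset.univ.filter (fun t : Fin (aa m) => tau m t = i)).card : ℝ)

def S_TauLt : Prop := ∀ (m : ℕ) (t : Fin (aa m)), tau m t < m

/-- The number of walks. -/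
def S_CardWalk : Prop := ∀ (m n : ℕ) (z0 : Fin n), 1 ≤ m → Fintype.card (Walk m n z0) = n ^ (m - 1)

/-- The matrix of the hard polynomial has a large identity submatrix. -/
def S_Hard : Prop :=
  ∀ (R : Type) [CommSemiring R] (m n L l : ℕ) (z0 : Fin n), 1 ≤ m → 1 ≤ n →
    (L : ℝ) / ((aa m : ℝ) * n * n + L - 1) ≤ (n : ℝ) ^ (-(1 / √2)) →
    (l : ℝ) / ((m : ℝ) * n * n + l - 1) ≤ (n : ℝ) ^ (-1 : ℝ) →
    10 * (m : ℝ) ^ 2 ≤ (n : ℝ) ^ (1 - 1 / √2) →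
    ∃ (I : Type) (_ : Fintype I) (_ : DecidableEq I)
      (r : I → Mon (Fin (aa m) × Fin n × Fin n) L × Mon (Fin m × Fin n × Fin n) (l + m))
      (c : I → Mon (Fin (aa m) × Fin n × Fin n) (L + aa m) × Mon (Fin m × Fin n × Fin n) l),
      (mat (PW R m n z0) (L + aa m) l L (l + m)).submatrix r c = 1 ∧
      (1 / 2 : ℝ) * ((n : ℝ) ^ (m - 1) * TT (aa m * n * n) L * TT (m * n * n) l) ≤
        Fintype.card I

def S_PWhom : Prop :=
  ∀ (R : Type) [CommSemiring R] (m n : ℕ) (z0 : Fin n), IsBi (PW R m n z0) (aa m) m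

/-! ## The permanent -/

/-- Permanent of a Hessenberg matrix with unit subdiagonal. -/
def S_Hess : Prop :=
  ∀ (R : Type) [CommRing R] (N : ℕ) (A : Matrix (Fin (N + 1)) (Fin (N + 1)) R) (p : ℕ → R),
    (∀ i j : Fin (N + 1), (j : ℕ) + 1 < i → A i j = 0) →
    (∀ i : Fin N, A i.succ i.castSucc = 1) → p (N + 1) = 1 →
    (∀ i : Fin (N + 1), p i = ∑ j : Fin (N + 1), if i ≤ j then A i j * p (j + 1) else 0) →
    A.permanent = p 0

/-- The sum over closed walks is the permanent of a matrix with entries zero, one and labels. -/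
def S_PermWalk : Prop :=
  ∀ (R : Type) [CommRing R] (m n M : ℕ) (z0 : Fin n) (B : ℕ → Matrix (Fin n) (Fin n) R),
    2 ≤ m → (m - 1) * n + 1 ≤ M →
    ∃ A : Matrix (Fin M) (Fin M) R,
      (∀ i j, A i j = 0 ∨ A i j = 1 ∨ ∃ t u v, t < m ∧ A i j = B t u v) ∧
      A.permanent = ∑ s : Walk m n z0, ∏ i : Fin m, B i (s.1 i.castSucc) (s.1 i.succ)

end Pool.Agent.Work.MP_499dc6_lc.CD
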