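import Pool.Agent.Work.MP_499dc6_lc.CD.Stmts

/-!
# Constant depth circuits for the permanent: parameters
-/

namespace Pool.Agent.Work.MP_499dc6_lc.CD

open MvPolynomial

theorem aa_ge (m : ℕ) : √2 * m ≤ aa m := Nat.le_ceil _

theorem aa_le (m : ℕ) : (aa m : ℝ) ≤ √2 * m + 1 := by
  have := Nat.ceil_lt_add_one (a := √2 * (m : ℝ)) (by positivity)
  exact this.le

theorem sqrt2_bounds : (1.414 : ℝ) < √2 ∧ √2 < 1.415 := by
  constructor
  · rw [Real.lt_sqrt (by norm_num)]; norm_num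
  · rw [Real.sqrt_lt' (by norm_num)]; norm_num

theorem aa_pos {m : ℕ} (hm : 1 ≤ m) : m + 1 ≤ aa m := by
  have h1 := aa_ge m
  have h2 := sqrt2_bounds
  have h3 : (1 : ℝ) ≤ m := by exact_mod_cast hm
  have h4 : (m : ℝ) < aa m := by nlinarith [h2.1]
  exact_mod_cast h4

theorem aa_le2 {m : ℕ} (hm : 2 ≤ m) : aa m ≤ 2 * m := by
  have h1 := aa_le m
  have h2 := sqrt2_bounds
  have h3 : (2 : ℝ) ≤ m := by exact_mod_cast hm
  have h4 : (aa m : ℝ) < 2 * m + 1 := by nlinarith [h2.2]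
  have h5 : aa m < 2 * m + 1 := by exact_mod_cast h4
  omega

/-- `al` -/
noncomputable def alp (n : ℕ) : ℝ := Real.log (n + 1) / √2

theorem sqrt2_alp (n : ℕ) : √2 * alp n = Real.log (n + 1) := by
  unfold alp
  field_simp

theorem exp_alp (n : ℕ) : Real.exp (alp n) = ((n : ℝ) + 1) ^ (1 / √2) := by
  rw [Real.rpow_def_of_pos (by positivity)]
  unfold alp
  congr 1
  ring

theorem exp_alp_le (n : ℕ) : Real.exp (alp n) ≤ n + 1 := by
  rw [exp_alp]
  have h2 := sqrt2_bounds
  have : (1 : ℝ) / √2 ≤ 1 := by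
    rw [div_le_one (by positivity)]
    linarith [h2.1]
  calc ((n : ℝ) + 1) ^ (1 / √2) ≤ ((n : ℝ) + 1) ^ (1 : ℝ) :=
        Real.rpow_le_rpow_of_exponent_le (by simp) this
    _ = n + 1 := Real.rpow_one _

theorem exp_alp_gt (n : ℕ) (hn : 3 ≤ n) : 2 ≤ Real.exp (alp n) := by
  rw [exp_alp]
  have h2 := sqrt2_bounds
  have hn' : (3 : ℝ) ≤ n := by exact_mod_cast hn
  have : (1 : ℝ) / 2 ≤ 1 / √2 := by
    rw [div_le_div_iff_of_pos_left (by norm_num) (by norm_num) (by positivity)]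
    linarith [h2.2]
  calc (2 : ℝ) = 4 ^ (1 / 2 : ℝ) := by
        rw [← Real.sqrt_eq_rpow]
        rw [show (4 : ℝ) = 2 ^ 2 by norm_num]
        rw [Real.sqrt_sq (by norm_num)]
    _ ≤ ((n : ℝ) + 1) ^ (1 / 2 : ℝ) :=
        Real.rpow_le_rpow (by norm_num) (by linarith) (by norm_num)
    _ ≤ ((n : ℝ) + 1) ^ (1 / √2) :=
        Real.rpow_le_rpow_of_exponent_le (by linarith) this

/-- `N1 - 1` divided by `exp al - 1` -/
noncomputable def DD (m n : ℕ) : ℝ := ((aa m : ℝ) * n * n - 1) / (Real.exp (alp n) - 1)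

noncomputable def LL (m n : ℕ) : ℕ := ⌊DD m n⌋₊ - aa m

section
variable {m n : ℕ} (hm : 2 ≤ m) (hn : 10 * m ≤ n)
include hm hn

theorem DD_ge : (aa m : ℝ) * n - 1 ≤ DD m n := by
  have hn3 : 3 ≤ n := by omega
  have h1 := exp_alp_le n
  have h2 := exp_alp_gt n hn3
  have hn' : (3 : ℝ) ≤ n := by exact_mod_cast hn3
  have ha : (1 : ℝ) ≤ aa m := by
    have := aa_pos (m := m) (by omega)
    have h : 1 ≤ aa m := by omega
    exact_mod_cast h
  unfold DD
  rw [le_div_iff₀ (by linarith)]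
  have : (aa m : ℝ) * n - 1 ≥ 0 := by nlinarith
  nlinarith

theorem DD_ge2 : 2 * (aa m : ℝ) ^ 2 ≤ DD m n := by
  refine le_trans ?_ (DD_ge hm hn)
  have h1 := aa_le2 hm
  have ha : (aa m : ℝ) ≤ 2 * m := by exact_mod_cast h1
  have hn' : (10 : ℝ) * m ≤ n := by exact_mod_cast hn
  have ha1 : (1 : ℝ) ≤ aa m := by
    have := aa_pos (m := m) (by omega)
    have h : 1 ≤ aa m := by omega
    exact_mod_cast h
  have hm' : (2 : ℝ) ≤ m := by exact_mod_cast hm
  nlinarith

theorem LL_add : LL m n + aa m = ⌊DD m n⌋₊ := by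
  unfold LL
  apply Nat.sub_add_cancel
  apply Nat.le_floor
  have h1 := DD_ge2 hm hn
  have ha1 : (1 : ℝ) ≤ aa m := by
    have := aa_pos (m := m) (by omega)
    have h : 1 ≤ aa m := by omega
    exact_mod_cast h
  nlinarith

theorem LL_le : (LL m n : ℝ) + aa m ≤ DD m n := by
  have h := LL_add hm hn
  have h1 : ((LL m n + aa m : ℕ) : ℝ) ≤ DD m n := by
    rw [h]
    apply Nat.floor_le
    have h1 := DD_ge2 hm hn
    nlinarith [sq_nonneg (aa m : ℝ)]
  push_cast at h1
  exact h1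

theorem LL_gt : DD m n < (LL m n : ℝ) + aa m + 1 := by
  have h := LL_add hm hn
  have h1 := Nat.lt_floor_add_one (DD m n)
  rw [← h] at h1
  push_cast at h1
  exact h1

theorem exp_cond1 : Real.exp (alp n) ≤
    ((aa m : ℝ) * n * n + ((LL m n : ℝ) + aa m) - 1) / ((LL m n : ℝ) + aa m) := by
  have hn3 : 3 ≤ n := by omega
  have h2 := exp_alp_gt n hn3
  have h3 := LL_le hm hn
  have ha1 : (1 : ℝ) ≤ aa m := by
    have := aa_pos (m := m) (by omega)
    have h : 1 ≤ aa m := by omega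
    exact_mod_cast h
  have hL : (0 : ℝ) ≤ LL m n := by positivity
  rw [le_div_iff₀ (by linarith)]
  unfold DD at h3
  rw [le_div_iff₀ (by linarith)] at h3
  nlinarith

theorem cond_rY : (LL m n : ℝ) / ((aa m : ℝ) * n * n + LL m n - 1) ≤ (n : ℝ) ^ (-(1 / √2)) := by
  have hn3 : 3 ≤ n := by omega
  have h2 := exp_alp_gt n hn3
  have h3 := LL_le hm hn
  have ha1 : (1 : ℝ) ≤ aa m := by
    have := aa_pos (m := m) (by omega)
    have h : 1 ≤ aa m := by omega
    exact_mod_cast h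
  have hn' : (3 : ℝ) ≤ n := by exact_mod_cast hn3
  have hL : (0 : ℝ) ≤ LL m n := by positivity
  have h4 : (LL m n : ℝ) * (Real.exp (alp n) - 1) ≤ (aa m : ℝ) * n * n - 1 := by
    unfold DD at h3
    rw [le_div_iff₀ (by linarith)] at h3
    nlinarith
  have hnn : (9 : ℝ) ≤ n * n := by nlinarith
  have hann : (9 : ℝ) ≤ (aa m : ℝ) * (n * n) := by nlinarith
  have hden : 0 < (aa m : ℝ) * n * n + LL m n - 1 := by nlinarith
  calc (LL m n : ℝ) / ((aa m : ℝ) * n * n + LL m n - 1) ≤ 1 / Real.exp (alp n) := by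
        rw [div_le_div_iff₀ hden (by positivity)]
        nlinarith
    _ = ((n : ℝ) + 1) ^ (-(1 / √2)) := by
        rw [exp_alp, Real.rpow_neg (by positivity), one_div]
    _ ≤ (n : ℝ) ^ (-(1 / √2)) := by
        apply Real.rpow_le_rpow_of_nonpos (by positivity) (by linarith)
        simp

theorem cond_rZ : ((m * n : ℕ) : ℝ) / ((m : ℝ) * n * n + (m * n : ℕ) - 1) ≤ (n : ℝ) ^ (-1 : ℝ) := by
  have hn3 : 3 ≤ n := by omega
  have hn' : (3 : ℝ) ≤ n := by exact_mod_cast hn3
  have hm' : (2 : ℝ) ≤ m := by exact_mod_cast hm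
  rw [Real.rpow_neg_one]
  push_cast
  have hmn : (6 : ℝ) ≤ m * n := by nlinarith
  have hmnn : (0 : ℝ) ≤ m * n * n := by positivity
  rw [← one_div, div_le_div_iff₀ (by nlinarith) (by positivity)]
  nlinarith

omit hm hn in
theorem cond_be : (((m * (n * n) : ℕ) : ℝ) + (m * n : ℕ)) / ((m * n : ℕ) + 1) ≤
    Real.exp (√2 * alp n) := by
  rw [sqrt2_alp, Real.exp_log (by positivity)]
  rw [div_le_iff₀ (by positivity)]
  push_cast
  nlinarith [show (0 : ℝ) ≤ n by positivity]

theorem growth_fin : (((aa m : ℝ) * n * n + LL m n) / (LL m n + 1)) ^ (aa m) ≤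
    Real.exp ((aa m : ℝ) * alp n + 1) := by
  have hn3 : 3 ≤ n := by omega
  have h2 := exp_alp_gt n hn3
  have hgt := LL_gt hm hn
  have hD := DD_ge2 hm hn
  have ha1 : (1 : ℝ) ≤ aa m := by
    have := aa_pos (m := m) (by omega)
    have h : 1 ≤ aa m := by omega
    exact_mod_cast h
  have hn' : (3 : ℝ) ≤ n := by exact_mod_cast hn3
  set a : ℝ := (aa m : ℝ) with ha
  set E : ℝ := Real.exp (alp n) with hE
  set D : ℝ := DD m n with hDD
  have hDpos : 0 < D := by nlinarith
  have haD : a / D ≤ 1 / 2 := by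
    rw [div_le_div_iff₀ hDpos (by norm_num)]
    nlinarith
  have hDa : 0 < D - a := by nlinarith
  have hN : a * n * n - 1 = D * (E - 1) := by
    rw [hDD]; unfold DD
    rw [div_mul_cancel₀]
    linarith
  have hx : (a * n * n + LL m n) / (LL m n + 1) ≤ E * Real.exp (2 * (a / D)) := by
    have h3 : (0 : ℝ) < (LL m n : ℝ) + 1 := by positivity
    have h4 : D - a ≤ (LL m n : ℝ) + 1 := by linarith
    have h5 : (a * n * n + LL m n) / (LL m n + 1) = 1 + D * (E - 1) / (LL m n + 1) := by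
      rw [← hN]; field_simp; ring
    have h6 : D * (E - 1) / (LL m n + 1) ≤ D * (E - 1) / (D - a) := by
      apply div_le_div_of_nonneg_left _ hDa h4
      have : 0 ≤ E - 1 := by linarith
      positivity
    have h7 : 1 + D * (E - 1) / (D - a) ≤ E * (D / (D - a)) := by
      have h8 : 1 ≤ D / (D - a) := by
        rw [le_div_iff₀ hDa]; linarith
      have h9 : D * (E - 1) / (D - a) = E * (D / (D - a)) - D / (D - a) := by ring
      rw [h9]; linarith
    have h10 : D / (D - a) ≤ Real.exp (2 * (a / D)) := by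
      have h11 : D / (D - a) = 1 / (1 - a / D) := by
        field_simp
      rw [h11]
      have hx0 : 0 ≤ a / D := by positivity
      have h12 : 1 ≤ (1 - a / D) * (1 + 2 * (a / D)) := by nlinarith
      have h13 : 1 + 2 * (a / D) ≤ Real.exp (2 * (a / D)) := by
        have := Real.add_one_le_exp (2 * (a / D)); linarith
      rw [div_le_iff₀ (by linarith)]
      nlinarith
    calc _ = 1 + D * (E - 1) / (LL m n + 1) := h5
      _ ≤ 1 + D * (E - 1) / (D - a) := by linarith
      _ ≤ E * (D / (D - a)) := h7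
      _ ≤ _ := by
        apply mul_le_mul_of_nonneg_left h10 (by positivity)
  have hpos : 0 ≤ (a * n * n + LL m n) / (LL m n + 1) := by positivity
  calc ((a * n * n + LL m n) / (LL m n + 1)) ^ (aa m) ≤ (E * Real.exp (2 * (a / D))) ^ (aa m) :=
        pow_le_pow_left₀ hpos hx _
    _ = Real.exp (a * (alp n + 2 * (a / D))) := by
        rw [hE, ← Real.exp_add, ← Real.exp_nat_mul]
    _ ≤ Real.exp (a * alp n + 1) := by
        apply Real.exp_le_exp.mpr
        have : a * (2 * (a / D)) ≤ 1 := by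
          have : a * (2 * (a / D)) = 2 * a ^ 2 / D := by ring
          rw [this, div_le_one hDpos]; exact hD
        nlinarith

end

end Pool.Agent.Work.MP_499dc6_lc.CD
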