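import Pool.Agent.Work.MP_499dc6_lc.CD.Stmts

/-!
# Constant depth circuits for the permanent: circuits with local gates

Gates: a polynomial of degree at most `e` plus a linear combination of any number of earlier
gates; a product of powers of any number of earlier gates; an arbitrary polynomial in `r`
earlier gates.
-/

namespace Pool.Agent.Work.MP_499dc6_lc.CD

open MvPolynomial

/-- Circuits with `s` gates and local gates of fan-in `r`. -/
def IsCkt {K σ : Type} [Field K] {s : ℕ} (e r : ℕ) (F : Fin s → MvPolynomial σ K)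
    (d : Fin s → ℕ) : Prop :=
  ∀ i, (∃ (l : MvPolynomial σ K) (c : Fin s → K), l.totalDegree ≤ e ∧
      (∀ j, c j ≠ 0 → j < i ∧ d j ≤ d i) ∧ F i = l + ∑ j, C (c j) * F j) ∨
    (∃ k : Fin s → ℕ, (∀ j, k j ≠ 0 → j < i ∧ d j < d i) ∧ F i = ∏ j, F j ^ k j) ∨
    (∃ (Q : MvPolynomial (Fin r) K) (g : Fin r → Fin s), (∀ t, g t < i ∧ d (g t) < d i) ∧
      F i = aeval (fun t => F (g t)) Q)

/-- The recursion of the exponents. -/
noncomputable def rd (G : ℝ) : ℕ → ℝ × ℝ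
  | 0 => (G, 1)
  | j + 1 =>
    (G + 100 * G / ((rd G j).2 ^ 2 / (4 * (rd G j).1 ^ 2)) ^ 2,
      ((rd G j).2 ^ 2 / (4 * (rd G j).1 ^ 2)) / 2)

/-- Local gates. -/
def S_LocalBB : Prop :=
  ∀ (Y Z : Type) [Fintype Y] [Fintype Z] (K : Type) [Field K] (al be : ℝ) (r : ℕ)
    (v : Fin r → MvPolynomial (Y ⊕ Z) K) (Q : MvPolynomial (Fin r) K) (lam : ℝ) (k : ℕ),
    0 < lam → (∀ j, ∀ i, 1 ≤ i →
      BB al be (homogeneousComponent i (v j)) (Real.exp (-(lam * i)))) →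
    BB al be (homogeneousComponent k (aeval v Q)) (Real.exp (96 * r / lam ^ 2 - lam / 2 * k))

def S_RdBound : Prop :=
  ∀ (G : ℝ) (j : ℕ), 1 ≤ G → G ≤ (rd G j).1 ∧ 0 < (rd G j).2 ∧ (rd G j).2 ≤ 1 ∧
    (rd G j).1 ≤ (1601 * G) ^ (9 ^ j) ∧ 1 / (rd G j).2 ≤ (1601 * G) ^ (9 ^ j)

def S_RdMono : Prop :=
  ∀ (G : ℝ) (i j : ℕ), 1 ≤ G → i ≤ j → (rd G i).1 ≤ (rd G j).1 ∧ (rd G j).2 ≤ (rd G i).2

/-- Upper bound for all gates of a circuit. -/
def S_Ckt : Prop :=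
  ∀ (Y Z : Type) [Fintype Y] [Fintype Z] (K : Type) [Field K] [CharZero K] (al G : ℝ)
    (s D e r : ℕ) (F : Fin s → MvPolynomial (Y ⊕ Z) K) (d : Fin s → ℕ), 10 ≤ al →
    IsCkt e r F d → (∀ i, d i ≤ D) → (∀ i, F i ≠ 0 → constantCoeff (F i) ≠ 0) →
    G = Real.log (s + 1) + e + r + 1 → 2 * ((1601 * G) ^ (9 ^ (2 * D))) ^ 2 ≤ Real.exp (al / 2) →
    ∀ i, ∀ k, 1 ≤ k → BB al (√2 * al) (homogeneousComponent k (F i))
      (Real.exp ((rd G (2 * D)).1 - (rd G (2 * D)).2 * k))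

/-- Substitution of polynomials of degree at most `e'` into a circuit. -/
def S_CktSubst : Prop :=
  ∀ (σ τ : Type) (K : Type) [Field K] (s e e' r : ℕ) (F : Fin s → MvPolynomial σ K)
    (d : Fin s → ℕ) (θ : σ → MvPolynomial τ K), IsCkt e r F d →
    (∀ i, (θ i).totalDegree ≤ e') → IsCkt (e * e') r (fun i => aeval θ (F i)) d

end Pool.Agent.Work.MP_499dc6_lc.CD
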