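import Mathlib
import Pool.Agent.Work.MP_499dc6_lc.CD.Stmts

/-!
# Upper bound for all gates of a circuit of bounded product depth
-/

namespace Pool.Agent.Work.MP_499dc6_lc.CD

open MvPolynomial

/-- A product gate. -/
def Circ_IsProd {K σ : Type} [Field K] {s : ℕ} (F : Fin s → MvPolynomial σ K)
    (d : Fin s → ℕ) (i : Fin s) : Prop :=
  ∃ k : Fin s → ℕ, (∀ j, k j ≠ 0 → j < i ∧ d j < d i) ∧ F i = ∏ j, F j ^ k j

/-- Normal form: every gate is a polynomial of low degree plus a linear combination of product
gates. -/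
theorem Circ_normal {K σ : Type} [Field K] {s : ℕ} (e : ℕ) (F : Fin s → MvPolynomial σ K)
    (d : Fin s → ℕ) (hF : IsCircuit e F d) (i : Fin s) :
    ∃ (l : MvPolynomial σ K) (c : Fin s → K), l.totalDegree ≤ e ∧
      (∀ j, c j ≠ 0 → d j ≤ d i ∧ Circ_IsProd F d j) ∧ F i = l + ∑ j, C (c j) * F j := by
  classical
  induction i using WellFoundedLT.induction with
  | ind i ih =>
  rcases hF i with ⟨l, c, hl, hc, hi⟩ | hprod
  · have ih' : ∀ j : Fin s, ∃ (l' : MvPolynomial σ K) (c' : Fin s → K), j < i →
        (l'.totalDegree ≤ e ∧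
        (∀ j', c' j' ≠ 0 → d j' ≤ d j ∧ Circ_IsProd F d j') ∧ F j = l' + ∑ j', C (c' j') * F j') := by
      intro j
      by_cases hj : j < i
      · obtain ⟨l', c', h⟩ := ih j hj
        exact ⟨l', c', fun _ => h⟩
      · exact ⟨0, 0, fun h => absurd h hj⟩
    choose L' C' hLC using ih'
    refine ⟨l + ∑ j, C (c j) * L' j, fun j' => ∑ j, c j * C' j j', ?_, ?_, ?_⟩
    · refine (totalDegree_add _ _).trans (max_le hl ?_)
      refine totalDegree_finsetSum_le fun j _ => ?_
      by_cases hcj : c j = 0
      · simp [hcj]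
      · refine (totalDegree_mul _ _).trans ?_
        rw [totalDegree_C, zero_add]
        exact (hLC j (hc j hcj).1).1
    · intro j' hj'
      obtain ⟨j, _, hj⟩ := Finset.exists_ne_zero_of_sum_ne_zero hj'
      have hcj : c j ≠ 0 := left_ne_zero_of_mul hj
      have hC : C' j j' ≠ 0 := right_ne_zero_of_mul hj
      obtain ⟨h1, h2⟩ := hc j hcj
      obtain ⟨h3, h4⟩ := (hLC j h1).2.1 j' hC
      exact ⟨h3.trans h2, h4⟩
    · have h1 : ∀ j, C (c j) * F j = C (c j) * L' j + ∑ j', C (c j * C' j j') * F j' := by
        intro j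
        by_cases hcj : c j = 0
        · simp [hcj]
        · conv_lhs => rw [(hLC j (hc j hcj).1).2.2]
          rw [mul_add, Finset.mul_sum]
          congr 1
          refine Finset.sum_congr rfl fun j' _ => ?_
          rw [C_mul]; ring
      rw [hi, Finset.sum_congr rfl fun j _ => h1 j, Finset.sum_add_distrib, ← add_assoc]
      congr 1
      rw [Finset.sum_comm]
      refine Finset.sum_congr rfl fun j' _ => ?_
      rw [map_sum, Finset.sum_mul]
  · refine ⟨0, Pi.single i 1, by simp, ?_, ?_⟩
    · intro j hj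
      have hji : j = i := by
        by_contra hne
        exact hj (Pi.single_eq_of_ne hne _)
      subst hji
      exact ⟨le_rfl, hprod⟩
    · rw [zero_add, Finset.sum_eq_single i]
      · simp
      · intro j _ hji
        simp [Pi.single_eq_of_ne hji]
      · simp

/-- Finite sums. -/
theorem Circ_sum {Y Z : Type} [Fintype Y] [Fintype Z] {K : Type} [Field K] {al be : ℝ}
    {ι : Type} (J : Finset ι) (f : ι → MvPolynomial (Y ⊕ Z) K) (E : ℝ)
    (h : ∀ j ∈ J, BB al be (f j) E) : BB al be (∑ j ∈ J, f j) (J.card * E) := by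
  classical
  induction J using Finset.induction_on with
  | empty => simpa using BB.zero
  | insert a J ha ih =>
    rw [Finset.sum_insert ha, Finset.card_insert_of_notMem ha]
    have h1 := h a (Finset.mem_insert_self _ _)
    have h2 := ih fun j hj => h j (Finset.mem_insert_of_mem hj)
    refine BB.mono (BB.add h1 h2) (le_of_eq ?_)
    push_cast
    ring

/-- Components of polynomials of degree at most `3`. -/
theorem Circ_low (hBBphi : S_BBphi) (hPhi : S_Phi) {Y Z : Type} [Fintype Y] [Fintype Z]
    {K : Type} [Field K] {al : ℝ} (hal : 10 ≤ al) (l : MvPolynomial (Y ⊕ Z) K)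
    (hl : l.totalDegree ≤ 3) (k : ℕ) (hk : 1 ≤ k) (E : ℝ) (hE : 0 ≤ E) (hE3 : k ≤ 3 → 1 ≤ E) :
    BB al (√2 * al) (homogeneousComponent k l) E := by
  by_cases hk3 : k ≤ 3
  · refine BB.mono (hBBphi Y Z K al (√2 * al) _ k (homogeneousComponent_isHomogeneous k l)) ?_
    refine le_trans (hPhi al k hal hk ?_) ?_
    · have h1 : (k : ℝ) ≤ 3 := by exact_mod_cast hk3
      have h2 : al / 2 + 1 ≤ Real.exp (al / 2) := Real.add_one_le_exp _
      linarith
    · refine le_trans ?_ (hE3 hk3)
      rw [Real.exp_le_one_iff]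
      have : 0 < (k : ℝ) := by exact_mod_cast hk
      have : 0 ≤ al / (6 * k) := by positivity
      linarith
  · have h0 : homogeneousComponent k l = 0 := by
      apply homogeneousComponent_eq_zero
      omega
    rw [h0]
    exact BB.mono BB.zero hE

theorem pr_Circ (hProd : S_Prod) (hSpanBB : S_SpanBB) (hStep : S_Step) (hRc : S_RcBound)
    (hBBsmul : S_BBsmul) (hBBphi : S_BBphi) (hPhi : S_Phi) : S_Circ := by
  intro Y Z _ _ K _ _ al G s D F d hal hcirc hd hcc hG hbig
  classical
  have hs1 : (1 : ℝ) ≤ (s : ℝ) + 1 := by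
    have : (0 : ℝ) ≤ s := Nat.cast_nonneg s
    linarith
  have hlog : 0 ≤ Real.log ((s : ℝ) + 1) := Real.log_nonneg hs1
  have hG3 : 3 ≤ G := by linarith
  have hG1 : 1 ≤ G := by linarith
  have hexpG : (s : ℝ) + 1 ≤ Real.exp G := by
    rw [hG, Real.exp_add, Real.exp_log (by linarith)]
    have : (1 : ℝ) ≤ Real.exp 3 := Real.one_le_exp (by norm_num)
    nlinarith
  -- the size condition
  have hsize : ∀ j, j ≤ 2 * D → 2 * (rc G j).1 / (rc G j).2 ≤ Real.exp (al / 2) := by
    intro j hj
    obtain ⟨h1, h2, h3, h4, h5⟩ := hRc G j hG1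
    refine le_trans ?_ hbig
    have hX : (257 * G) ^ (8 ^ j) ≤ (257 * G) ^ (8 ^ (2 * D)) :=
      pow_le_pow_right₀ (by linarith) (Nat.pow_le_pow_right (by norm_num) hj)
    have hX0 : 0 ≤ (257 * G) ^ (8 ^ j) := by positivity
    have h6 : (rc G j).1 * (1 / (rc G j).2) ≤
        (257 * G) ^ (8 ^ (2 * D)) * (257 * G) ^ (8 ^ (2 * D)) := by
      apply mul_le_mul (h4.trans hX) (h5.trans hX)
      · positivity
      · positivity
    calc 2 * (rc G j).1 / (rc G j).2 = 2 * ((rc G j).1 * (1 / (rc G j).2)) := by ring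
      _ ≤ 2 * ((257 * G) ^ (8 ^ (2 * D)) * (257 * G) ^ (8 ^ (2 * D))) := by linarith
      _ = _ := by ring
  -- combination of the two bounds
  have hcomb : ∀ (j : ℕ), j ≤ 2 * D → ∀ (f : MvPolynomial (Y ⊕ Z) K) (k : ℕ), 1 ≤ k →
      f.IsHomogeneous k → BB al (√2 * al) f (Real.exp ((rc G j).1 - (rc G j).2 * k)) →
      BB al (√2 * al) f (Real.exp (-((rc G j).2 ^ 2 / (4 * (rc G j).1 ^ 2) * k))) := by
    intro j hj f k hk hf hb
    obtain ⟨h1, h2, h3, h4, h5⟩ := hRc G j hG1
    rcases hStep al (rc G j).1 (rc G j).2 k hal (hG1.trans h1) h2 h3 hk (hsize j hj) with h | h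
    · exact BB.mono (hBBphi Y Z K al (√2 * al) f k hf) h
    · exact BB.mono hb h
  -- the claim
  have claim : ∀ D', D' ≤ D → ∀ i, d i ≤ D' → ∀ k, 1 ≤ k →
      BB al (√2 * al) (homogeneousComponent k (F i))
        (Real.exp ((rc G (2 * D')).1 - (rc G (2 * D')).2 * k)) := by
    intro D'
    induction D' with
    | zero =>
      intro _ i hi k hk
      obtain ⟨l, c, hl, hc, hFi⟩ := Circ_normal 3 F d hcirc i
      have hone : ∀ j, c j ≠ 0 → F j = 1 := by
        intro j hj
        obtain ⟨h1, m, hm, hFj⟩ := hc j hj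
        rw [hFj]
        refine Finset.prod_eq_one fun j' _ => ?_
        have : m j' = 0 := by
          by_contra hne
          have := (hm j' hne).2
          omega
        rw [this, pow_zero]
      have hdeg : (F i).totalDegree ≤ 3 := by
        rw [hFi]
        refine (totalDegree_add _ _).trans (max_le hl ?_)
        refine totalDegree_finsetSum_le fun j _ => ?_
        by_cases hcj : c j = 0
        · simp [hcj]
        · rw [hone j hcj, mul_one, totalDegree_C]
          exact Nat.zero_le _
      apply Circ_low hBBphi hPhi hal _ hdeg k hk _ (Real.exp_pos _).le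
      intro hk3
      apply Real.one_le_exp
      have : (k : ℝ) ≤ 3 := by exact_mod_cast hk3
      simp only [rc]
      linarith
    | succ D' ih =>
      intro hD i hi k hk
      have ih' := ih (by omega)
      -- constants
      obtain ⟨a1, a2, a3, -, -⟩ := hRc G (2 * D') hG1
      obtain ⟨b1, b2, b3, -, -⟩ := hRc G (2 * D' + 1) hG1
      have hrc1 : rc G (2 * D' + 1) =
          (G + 16 / ((rc G (2 * D')).2 ^ 2 / (4 * (rc G (2 * D')).1 ^ 2)) ^ 2,
            ((rc G (2 * D')).2 ^ 2 / (4 * (rc G (2 * D')).1 ^ 2)) / 2) := rfl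
      have hrc2 : rc G (2 * (D' + 1)) =
          (G + 16 / ((rc G (2 * D' + 1)).2 ^ 2 / (4 * (rc G (2 * D' + 1)).1 ^ 2)) ^ 2,
            ((rc G (2 * D' + 1)).2 ^ 2 / (4 * (rc G (2 * D' + 1)).1 ^ 2)) / 2) := rfl
      set l1 := (rc G (2 * D')).2 ^ 2 / (4 * (rc G (2 * D')).1 ^ 2) with hl1
      set l2 := (rc G (2 * D' + 1)).2 ^ 2 / (4 * (rc G (2 * D' + 1)).1 ^ 2) with hl2
      have hl1pos : 0 < l1 := by
        have : 0 < (rc G (2 * D')).1 := by linarith
        positivity
      have hl2pos : 0 < l2 := by
        have : 0 < (rc G (2 * D' + 1)).1 := by linarith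
        positivity
      have hl2le : l2 ≤ 1 := by
        rw [hl2, div_le_one (by have : 0 < (rc G (2 * D' + 1)).1 := by linarith
                                positivity)]
        have h1 : (1 : ℝ) ≤ (rc G (2 * D' + 1)).1 := by linarith
        nlinarith
      -- product gates
      have hprod : ∀ j, d j ≤ D' + 1 → Circ_IsProd F d j → ∀ k, 1 ≤ k →
          BB al (√2 * al) (homogeneousComponent k (F j)) (Real.exp (16 / l2 ^ 2 - l2 / 2 * k)) := by
        intro j hj ⟨m, hm, hFj⟩ k hk
        by_cases hzero : ∃ j', m j' ≠ 0 ∧ F j' = 0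
        · obtain ⟨j', hmj', hFj'⟩ := hzero
          have : F j = 0 := by
            rw [hFj]
            apply Finset.prod_eq_zero (Finset.mem_univ j')
            rw [hFj', zero_pow hmj']
          rw [this, map_zero]
          exact BB.mono BB.zero (Real.exp_pos _).le
        · push Not at hzero
          obtain ⟨w, hw1, hw2, hw3⟩ := hProd Y Z K al (√2 * al) (Fin s) F m l1 hl1pos
            (fun j' hj' => hcc j' (hzero j' hj'))
            (fun j' hj' k' hk' => by
              apply hcomb (2 * D') (by omega) _ k' hk' (homogeneousComponent_isHomogeneous k' _)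
              apply ih' j' _ k' hk'
              have := (hm j' hj').2
              omega)
          have hwBB : ∀ k', 1 ≤ k' → BB al (√2 * al) (w k') (Real.exp (-(l2 * k'))) := by
            intro k' hk'
            apply hcomb (2 * D' + 1) (by omega) _ k' hk' (hw1 k')
            refine BB.mono (hw2 k' hk') ?_
            rw [hrc1, Fintype.card_fin]
            simp only
            have h1 : Real.exp (G + 16 / l1 ^ 2 - l1 / 2 * k') =
                Real.exp G * Real.exp (16 / l1 ^ 2 - l1 / 2 * k') := by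
              rw [← Real.exp_add]; congr 1; ring
            rw [h1]
            apply mul_le_mul_of_nonneg_right _ (Real.exp_pos _).le
            linarith
          have h2 := hw3 k hk
          rw [← hFj] at h2
          exact hSpanBB Y Z K al (√2 * al) w _ l2 k hl2pos hwBB h2
      obtain ⟨l, c, hl, hc, hFi⟩ := Circ_normal 3 F d hcirc i
      set E := Real.exp (16 / l2 ^ 2 - l2 / 2 * k) with hE
      have hEpos : 0 < E := Real.exp_pos _
      have hE3 : k ≤ 3 → 1 ≤ E := by
        intro hk3
        apply Real.one_le_exp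
        have h1 : (k : ℝ) ≤ 3 := by exact_mod_cast hk3
        have h2 : 16 ≤ 16 / l2 ^ 2 := by
          rw [le_div_iff₀ (by positivity)]
          nlinarith
        nlinarith
      have hcomp : homogeneousComponent k (F i) =
          homogeneousComponent k l + ∑ j, C (c j) * homogeneousComponent k (F j) := by
        conv_lhs => rw [hFi]
        rw [map_add, map_sum]
        congr 1
        refine Finset.sum_congr rfl fun j _ => ?_
        rw [homogeneousComponent_C_mul]
      rw [hcomp]
      have hpart1 := Circ_low hBBphi hPhi hal l hl k hk E hEpos.le hE3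
      have hpart2 : BB al (√2 * al) (∑ j, C (c j) * homogeneousComponent k (F j))
          ((Finset.univ : Finset (Fin s)).card * E) := by
        apply Circ_sum
        intro j _
        by_cases hcj : c j = 0
        · rw [hcj, C_0, zero_mul]
          exact BB.mono BB.zero hEpos.le
        · obtain ⟨h1, h2⟩ := hc j hcj
          exact hBBsmul Y Z K al (√2 * al) _ _ _ (hprod j (h1.trans hi) h2 k hk)
      refine BB.mono (BB.add hpart1 hpart2) ?_
      rw [Finset.card_univ, Fintype.card_fin, hrc2]
      simp only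
      have h1 : Real.exp (G + 16 / l2 ^ 2 - l2 / 2 * k) = Real.exp G * E := by
        rw [hE, ← Real.exp_add]; congr 1; ring
      rw [h1]
      nlinarith
  intro i k hk
  exact claim D le_rfl i (hd i) k hk

end Pool.Agent.Work.MP_499dc6_lc.CD
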