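import Pool.Agent.Work.MP_499dc6_lc.Bd.B03
import Pool.Agent.Work.MP_499dc6_lc.CD.Stmts2

/-!
# Constant depth circuits for the permanent: final assembly
-/

namespace Pool.Agent.Work.MP_499dc6_lc.CD

open MvPolynomial

/-- The permanent of the matrix of variables. -/
noncomputable def permP (R : Type) [CommSemiring R] (M : ℕ) : MvPolynomial (Fin M × Fin M) R :=
  (Matrix.of fun i j => X (i, j)).permanent

theorem map_permanent' {R S : Type*} [CommSemiring R] [CommSemiring S] {n : Type*}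
    [DecidableEq n] [Fintype n] (f : R →+* S) (A : Matrix n n R) :
    f A.permanent = (Matrix.of fun i j => f (A i j)).permanent := by
  simp [Matrix.permanent, map_sum, map_prod]

/-- Labels of the layered graph. -/
noncomputable def lab (R : Type) [CommSemiring R] (m n : ℕ) (i : ℕ) :
    Matrix (Fin n) (Fin n) (MvPolynomial ((Fin (aa m) × Fin n × Fin n) ⊕ (Fin m × Fin n × Fin n)) R) :=
  fun u v => if h : i < m then
    (X (Sum.inr (⟨i, h⟩, u, v)) *
      ∏ t ∈ Finset.univ.filter (fun t : Fin (aa m) => tau m t = i), X (Sum.inl (t, u, v))) else 0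

theorem card_tau_le (m i : ℕ) :
    (Finset.univ.filter (fun t : Fin (aa m) => tau m t = i)).card ≤ 2 := by
  classical
  have h2 := sqrt2_bounds
  have hs : (0 : ℝ) < √2 := by positivity
  calc (Finset.univ.filter (fun t : Fin (aa m) => tau m t = i)).card
      ≤ (Finset.Icc ⌈√2 * (i : ℝ)⌉₊ (⌈√2 * (i : ℝ)⌉₊ + 1)).card := by
        apply Finset.card_le_card_of_injOn (fun t : Fin (aa m) => (t : ℕ))
        · intro t ht
          simp only [Finset.coe_filter, Finset.mem_univ, true_and, Set.mem_ofPred_eq] at ht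
          simp only [Finset.coe_Icc, Set.mem_Icc]
          unfold tau at ht
          have h3 : (i : ℝ) ≤ (t : ℝ) / √2 := by
            rw [← ht]; exact Nat.floor_le (by positivity)
          have h4 : (t : ℝ) / √2 < (i : ℝ) + 1 := by
            rw [← ht]; exact Nat.lt_floor_add_one _
          rw [le_div_iff₀ hs] at h3
          rw [div_lt_iff₀ hs] at h4
          constructor
          · apply Nat.ceil_le.mpr; linarith
          · have h5 : √2 * (i : ℝ) ≤ ⌈√2 * (i : ℝ)⌉₊ := Nat.le_ceil _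
            have h6 : (t : ℝ) < ⌈√2 * (i : ℝ)⌉₊ + 2 := by nlinarith [h2.2]
            have h7 : (t : ℕ) < ⌈√2 * (i : ℝ)⌉₊ + 2 := by exact_mod_cast h6
            omega
        · intro a _ b _ hab
          exact Fin.ext hab
    _ = 2 := by rw [Nat.card_Icc]; omega

theorem lab_sum (R : Type) [CommSemiring R] (m n : ℕ) (z0 : Fin n) :
    ∑ s : Walk m n z0, ∏ i : Fin m, lab R m n i (s.1 i.castSucc) (s.1 i.succ) = PW R m n z0 := by
  unfold PW
  apply Finset.sum_congr rfl
  intro s _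
  apply Finset.prod_congr rfl
  intro i _
  unfold lab
  rw [dif_pos i.2]

theorem totalDegree_trans_X {σ R : Type} [CommRing R] (j : σ) (c : R) :
    (X j + C c : MvPolynomial σ R).totalDegree ≤ 1 := by
  refine (totalDegree_add _ _).trans ?_
  rw [totalDegree_C]
  by_cases hR : Nontrivial R
  · rw [totalDegree_X]; simp
  · rw [not_nontrivial_iff_subsingleton] at hR
    have : (X j : MvPolynomial σ R) = 0 := Subsingleton.elim _ _
    rw [this]; simp

theorem totalDegree_lab {k : Type} [Field k] (m n : ℕ) (x : ((Fin (aa m) × Fin n × Fin n) ⊕ (Fin m × Fin n × Fin n)) → k)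
    (t : ℕ) (u v : Fin n) :
    (aeval (fun j => (X j + C (algebraMap (PowerSeries k) (LaurentSeries k)
      (PowerSeries.C (x j))) : MvPolynomial _ (LaurentSeries k)))
      (MvPolynomial.map (algebraMap (PowerSeries k) (LaurentSeries k)) (lab (PowerSeries k) m n t u v))).totalDegree ≤ 3 := by
  unfold lab
  split_ifs with h
  · rw [map_mul, map_mul, map_X, aeval_X, map_prod, map_prod]
    refine (totalDegree_mul _ _).trans ?_
    have h1 : (∏ t_1 ∈ Finset.univ.filter (fun t_1 : Fin (aa m) => tau m t_1 = t),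
        aeval (fun j => (X j + C (algebraMap (PowerSeries k) (LaurentSeries k)
      (PowerSeries.C (x j))) : MvPolynomial _ (LaurentSeries k)))
      (MvPolynomial.map (algebraMap (PowerSeries k) (LaurentSeries k))
        (X (Sum.inl (t_1, u, v)) : MvPolynomial ((Fin (aa m) × Fin n × Fin n) ⊕ (Fin m × Fin n × Fin n)) (PowerSeries k)))).totalDegree ≤ 2 := by
      refine (totalDegree_finsetProd _ _).trans ?_
      refine (Finset.sum_le_card_nsmul _ _ 1 ?_).trans ?_
      · intro t1 _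
        rw [map_X, aeval_X]
        exact totalDegree_trans_X _ _
      · have := card_tau_le m t
        simpa using this
    have h2 := totalDegree_trans_X (R := LaurentSeries k)
      (Sum.inr (⟨t, h⟩, u, v) : (Fin (aa m) × Fin n × Fin n) ⊕ (Fin m × Fin n × Fin n))
      (algebraMap (PowerSeries k) (LaurentSeries k) (PowerSeries.C (x (Sum.inr (⟨t, h⟩, u, v)))))
    omega
  · simp

/-- The homogeneous component commutes with `map`. -/
theorem hc_map {σ R S : Type} [CommRing R] [CommRing S] (f : R →+* S) (p : MvPolynomial σ R) (k : ℕ) :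
    homogeneousComponent k (MvPolynomial.map f p) = MvPolynomial.map f (homogeneousComponent k p) := by
  ext m
  rw [coeff_homogeneousComponent, coeff_map, coeff_map, coeff_homogeneousComponent]
  split_ifs <;> simp


theorem aeval_map_map {σ τ R S : Type} [CommRing R] [CommRing S] (f : R →+* S)
    (g : σ → MvPolynomial τ R) (p : MvPolynomial σ R) :
    aeval (fun j => MvPolynomial.map f (g j)) (MvPolynomial.map f p) =
      MvPolynomial.map f (aeval g p) := by
  induction p using MvPolynomial.induction_on with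
  | C a => simp
  | add p q hp hq => simp only [map_add, hp, hq]
  | mul_X p i hp => simp only [map_mul, hp, map_X, aeval_X]

theorem aeval_lin {σ τ R : Type} [CommRing R] (g : σ → MvPolynomial τ R)
    (P Q : MvPolynomial σ R) (c : R) :
    aeval g (P + C c * Q) = aeval g P + C c * aeval g Q := by
  rw [map_add, map_mul, aeval_C]
  rfl

theorem hc_lin {τ R : Type} [CommRing R] (P Q : MvPolynomial τ R) (c : R) (k : ℕ) :
    homogeneousComponent k (P + C c * Q) = homogeneousComponent k P +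
      C c * homogeneousComponent k Q := by
  rw [map_add, homogeneousComponent_C_mul]

theorem top_gen {σ τ R : Type} [CommRing R] (g : σ → MvPolynomial τ R)
    (t : τ → MvPolynomial τ R) (P R1 : MvPolynomial σ R) (W : MvPolynomial τ R) (c : R) (N : ℕ)
    (h2 : aeval g P = W) (h3 : homogeneousComponent N (aeval t W) = W) :
    homogeneousComponent N (aeval t (aeval g (P + C c * R1))) =
      W + C c * homogeneousComponent N (aeval t (aeval g R1)) := by
  rw [aeval_lin, h2, aeval_lin, hc_lin, h3]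

theorem charZero_laurent (k : Type) [Field k] [CharZero k] : CharZero (LaurentSeries k) :=
  charZero_of_injective_ringHom (f := (HahnSeries.C : k →+* LaurentSeries k))
    HahnSeries.C_injective

/-- The vertex set of variables. -/
abbrev VV (m n : ℕ) : Type := (Fin (aa m) × Fin n × Fin n) ⊕ (Fin m × Fin n × Fin n)

theorem upper (hPM : S_PermWalk) (hPW : S_PWhom) (hHom : S_BiHom)
    (hCk : S_Ckt) (hCS : S_CktSubst) (hTr : S_Transl) (hTT : S_TransTop)
    (k : Type) [Field k] [CharZero k] (M Δ s e r m n : ℕ) (z0 : Fin n)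
    (F : Fin s → MvPolynomial (Fin M × Fin M) (LaurentSeries k)) (d : Fin s → ℕ)
    (R : MvPolynomial (Fin M × Fin M) (PowerSeries k))
    (hF : IsCkt e r F d) (hd : ∀ i, d i ≤ Δ) (i0 : Fin s)
    (hi0 : F i0 = MvPolynomial.map (algebraMap (PowerSeries k) (LaurentSeries k))
      (permP (PowerSeries k) M + C PowerSeries.X * R))
    (hm : 2 ≤ m) (hM : (m - 1) * n + 1 ≤ M) (G : ℝ)
    (hG : G = Real.log (s + 1) + ((e * 3 : ℕ) : ℝ) + r + 1) (hal : 10 ≤ alp n)
    (hcond : 2 * ((1601 * G) ^ (9 ^ (2 * Δ))) ^ 2 ≤ Real.exp (alp n / 2)) :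
    ∃ R' : MvPolynomial (VV m n) (PowerSeries k),
      BB (alp n) (√2 * alp n) (MvPolynomial.map (algebraMap (PowerSeries k) (LaurentSeries k))
        (PW (PowerSeries k) m n z0 + C PowerSeries.X * R'))
        (Real.exp ((rd G (2 * Δ)).1 - (rd G (2 * Δ)).2 * ((aa m + m : ℕ) : ℝ))) := by
  set φ := algebraMap (PowerSeries k) (LaurentSeries k) with hφ
  obtain ⟨A, hA, hperm⟩ := hPM (MvPolynomial (VV m n) (PowerSeries k)) m n M z0
    (lab (PowerSeries k) m n) hm hM
  rw [lab_sum] at hperm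
  let g1 : Fin M × Fin M → MvPolynomial (VV m n) (PowerSeries k) := fun p => A p.1 p.2
  let θ1 : Fin M × Fin M → MvPolynomial (VV m n) (LaurentSeries k) :=
    fun p => MvPolynomial.map φ (g1 p)
  obtain ⟨x, hx⟩ := hTr (VV m n) k s (fun i => aeval θ1 (F i))
  let trP : VV m n → MvPolynomial (VV m n) (PowerSeries k) :=
    fun j => X j + C (PowerSeries.C (x j))
  let tr : VV m n → MvPolynomial (VV m n) (LaurentSeries k) :=
    fun j => X j + C (φ (PowerSeries.C (x j)))
  have htr : tr = fun j => MvPolynomial.map φ (trP j) := by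
    funext j
    simp [tr, trP]
  let θ2 : Fin M × Fin M → MvPolynomial (VV m n) (LaurentSeries k) := fun p => aeval tr (θ1 p)
  have hcomp : ∀ f : MvPolynomial (Fin M × Fin M) (LaurentSeries k),
      aeval θ2 f = aeval tr (aeval θ1 f) := by
    intro f
    exact (comp_aeval_apply θ1 (aeval tr : MvPolynomial (VV m n) (LaurentSeries k) →ₐ[LaurentSeries k] _) f).symm
  have hdeg : ∀ p, (θ2 p).totalDegree ≤ 3 := by
    intro p
    rcases hA p.1 p.2 with h | h | ⟨t, u, v, ht, h⟩
    · have : θ2 p = 0 := by simp [θ2, θ1, g1, h]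
      rw [this]; simp
    · have : θ2 p = 1 := by simp [θ2, θ1, g1, h]
      rw [this]; simp
    · have : θ2 p = aeval tr (MvPolynomial.map φ (lab (PowerSeries k) m n t u v)) := by
        simp [θ2, θ1, g1, h]
      rw [this]
      exact totalDegree_lab m n x t u v
  have hck2 := hCS _ _ _ s e 3 r F d θ2 hF hdeg
  have hcc : ∀ i, aeval θ2 (F i) ≠ 0 → constantCoeff (aeval θ2 (F i)) ≠ 0 := by
    intro i hi
    rw [hcomp] at hi ⊢
    apply hx
    intro h0
    apply hi
    rw [h0, map_zero]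
  have hBB := @hCk _ _ _ _ (LaurentSeries k) _ (charZero_laurent k) (alp n) G s Δ (e * 3) r _ d hal hck2 hd hcc hG hcond i0 (aa m + m) (by omega)
  -- the top component
  have h1 : aeval θ2 (F i0) = MvPolynomial.map φ (aeval trP (aeval g1
      (permP (PowerSeries k) M + C PowerSeries.X * R))) := by
    rw [hcomp, hi0, htr]
    rw [show θ1 = fun p => MvPolynomial.map φ (g1 p) from rfl]
    rw [aeval_map_map, aeval_map_map]
  have h2 : aeval g1 (permP (PowerSeries k) M) = PW (PowerSeries k) m n z0 := by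
    rw [← hperm]
    unfold permP
    have := map_permanent' (aeval g1 : MvPolynomial (Fin M × Fin M) (PowerSeries k) →ₐ[PowerSeries k] MvPolynomial (VV m n) (PowerSeries k)).toRingHom
      (Matrix.of fun i j => (X (i, j) : MvPolynomial (Fin M × Fin M) (PowerSeries k)))
    simp only [AlgHom.toRingHom_eq_coe, RingHom.coe_coe, Matrix.of_apply, aeval_X] at this
    rw [this]
    rfl
  have hPWh : (PW (PowerSeries k) m n z0).IsHomogeneous (aa m + m) :=
    hHom _ _ _ _ _ _ (hPW (PowerSeries k) m n z0)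
  have h3 : homogeneousComponent (aa m + m) (aeval trP (PW (PowerSeries k) m n z0)) =
      PW (PowerSeries k) m n z0 := hTT _ _ _ _ _ hPWh
  refine ⟨homogeneousComponent (aa m + m) (aeval trP (aeval g1 R)), ?_⟩
  have h4 : homogeneousComponent (aa m + m) (aeval θ2 (F i0)) =
      MvPolynomial.map φ (PW (PowerSeries k) m n z0 + C PowerSeries.X *
        homogeneousComponent (aa m + m) (aeval trP (aeval g1 R))) := by
    rw [h1, hc_map, top_gen g1 trP (permP (PowerSeries k) M) R (PW (PowerSeries k) m n z0)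
      PowerSeries.X (aa m + m) h2 h3]
  rw [← h4]
  exact hBB

theorem alp_ge {m : ℕ} (hm : 30000 ≤ m) : 6 * Real.log m ≤ alp (m ^ 10) ∧ 10 ≤ Real.log m := by
  have hmR : (30000 : ℝ) ≤ m := by exact_mod_cast hm
  have hs2 := sqrt2_bounds
  have h0 : 10 ≤ Real.log (m : ℝ) := by
    rw [Real.le_log_iff_exp_le (by linarith)]
    refine le_trans ?_ hmR
    have h1 : Real.exp 10 = Real.exp 1 ^ 10 := by
      rw [← Real.exp_nat_mul]; norm_num
    rw [h1]
    have h2 := Real.exp_one_lt_d9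
    have h3 := Real.exp_pos 1
    calc Real.exp 1 ^ 10 ≤ (2.7182818286 : ℝ) ^ 10 := by
          apply pow_le_pow_left₀ h3.le h2.le
      _ ≤ 30000 := by norm_num
  refine ⟨?_, h0⟩
  unfold alp
  rw [le_div_iff₀ (by positivity)]
  have h3 : Real.log ((m : ℝ) ^ 10) ≤ Real.log (((m ^ 10 : ℕ) : ℝ) + 1) := by
    apply Real.log_le_log (by positivity)
    push_cast; linarith
  rw [Real.log_pow] at h3
  push_cast at h3 ⊢
  nlinarith [hs2.2]

theorem main_ineq (hPM : S_PermWalk) (hHard : S_Hard) (hPW : S_PWhom) (hHom : S_BiHom)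
    (hRL : S_RankLow) (hRk : S_BBrank) (hG2 : S_Grow2) (hCk : S_Ckt) (hCS : S_CktSubst)
    (hTr : S_Transl) (hTT : S_TransTop) (hRd : S_RdBound)
    (k : Type) [Field k] [CharZero k] (M Δ s e r m : ℕ)
    (F : Fin s → MvPolynomial (Fin M × Fin M) (LaurentSeries k)) (d : Fin s → ℕ)
    (R : MvPolynomial (Fin M × Fin M) (PowerSeries k))
    (hF : IsCkt e r F d) (hd : ∀ i, d i ≤ Δ) (i0 : Fin s)
    (hi0 : F i0 = MvPolynomial.map (algebraMap (PowerSeries k) (LaurentSeries k))
      (permP (PowerSeries k) M + C PowerSeries.X * R))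
    (hm : 30000 ≤ m) (hM : (m - 1) * m ^ 10 + 1 ≤ M) (G : ℝ)
    (hG : G = Real.log (s + 1) + ((e * 3 : ℕ) : ℝ) + r + 1) :
    (m : ℝ) < ((1601 * G) ^ (9 ^ (2 * Δ))) ^ 3 := by
  by_contra hcon
  push Not at hcon
  obtain ⟨n, hn⟩ : ∃ n, n = m ^ 10 := ⟨_, rfl⟩
  rw [← hn] at hM
  have hm1 : 1 ≤ m := by omega
  have hm2 : 2 ≤ m := by omega
  have hmR : (30000 : ℝ) ≤ m := by exact_mod_cast hm
  have hnm : 10 * m ≤ n := by
    rw [hn]
    calc 10 * m ≤ m ^ 9 * m := by
          apply Nat.mul_le_mul_right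
          calc 10 ≤ m ^ 1 := by rw [pow_one]; omega
            _ ≤ m ^ 9 := Nat.pow_le_pow_right (by omega) (by norm_num)
      _ = m ^ 10 := by ring
  have hn1 : 1 ≤ n := by omega
  have hnR : (1 : ℝ) ≤ n := by exact_mod_cast hn1
  obtain ⟨B, hB⟩ : ∃ B : ℝ, B = (1601 * G) ^ (9 ^ (2 * Δ)) := ⟨_, rfl⟩
  rw [← hB] at hcon
  have hG1 : 1 ≤ G := by
    rw [hG]
    have h1 : 0 ≤ Real.log ((s : ℝ) + 1) := Real.log_nonneg (by
      have : (0 : ℝ) ≤ s := by positivity
      linarith)
    have h2 : (0 : ℝ) ≤ ((e * 3 : ℕ) : ℝ) := by positivity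
    have h3 : (0 : ℝ) ≤ (r : ℝ) := by positivity
    linarith
  have hB1 : 1 ≤ B := by
    rw [hB]
    apply one_le_pow₀
    linarith
  obtain ⟨halp, hlogm⟩ := alp_ge hm
  rw [← hn] at halp
  have hal : 10 ≤ alp n := by linarith
  have hexp : (m : ℝ) ^ 3 ≤ Real.exp (alp n / 2) := by
    have h1 : (m : ℝ) ^ 3 = Real.exp (3 * Real.log m) := by
      rw [mul_comm, ← Real.rpow_def_of_pos (by linarith)]
      norm_num
    rw [h1]
    apply Real.exp_le_exp.mpr
    linarith
  have hcond : 2 * B ^ 2 ≤ Real.exp (alp n / 2) := by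
    refine le_trans ?_ hexp
    have h1 : B ^ 2 ≤ B ^ 3 := pow_le_pow_right₀ hB1 (by norm_num)
    nlinarith [sq_nonneg (m : ℝ)]
  rw [hB] at hcond
  obtain ⟨R', hBB⟩ := upper hPM hPW hHom hCk hCS hTr hTT k M Δ s e r m n ⟨0, by omega⟩ F d R hF hd
    i0 hi0 hm2 hM G hG hal hcond
  obtain ⟨-, hlm0, -, hsg, hlm⟩ := hRd G (2 * Δ) hG1
  rw [← hB] at hsg hlm
  -- the two rank bounds
  have hpow : 10 * (m : ℝ) ^ 2 ≤ (n : ℝ) ^ (1 - 1 / √2) := by
    have hs2 := sqrt2_bounds
    have h1 : (29 / 100 : ℝ) ≤ 1 - 1 / √2 := by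
      have : 1 / √2 ≤ 71 / 100 := by
        rw [div_le_iff₀ (by positivity)]
        nlinarith [hs2.1]
      linarith
    calc 10 * (m : ℝ) ^ 2 ≤ (m : ℝ) ^ (29 / 10 : ℝ) := by
          rw [show (29 / 10 : ℝ) = (2 : ℕ) + 9 / 10 by norm_num, Real.rpow_add (by linarith),
            Real.rpow_natCast, mul_comm]
          apply mul_le_mul_of_nonneg_left _ (by positivity)
          have h2 : (10 : ℝ) ≤ (m : ℝ) ^ (1 / 2 : ℝ) := by
            rw [← Real.sqrt_eq_rpow]
            apply Real.le_sqrt_of_sq_le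
            linarith
          refine h2.trans ?_
          apply Real.rpow_le_rpow_of_exponent_le (by linarith) (by norm_num)
      _ = (n : ℝ) ^ (29 / 100 : ℝ) := by
          rw [hn]; push_cast
          rw [← Real.rpow_natCast, ← Real.rpow_mul (by positivity)]
          norm_num
      _ ≤ (n : ℝ) ^ (1 - 1 / √2) := Real.rpow_le_rpow_of_exponent_le hnR h1
  have hne : Nonempty (Fin (aa m) × Fin n × Fin n) := by
    have := aa_pos hm1
    exact ⟨(⟨0, by omega⟩, ⟨0, by omega⟩, ⟨0, by omega⟩)⟩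
  have hne2 : Nonempty (Fin m × Fin n × Fin n) :=
    ⟨(⟨0, by omega⟩, ⟨0, by omega⟩, ⟨0, by omega⟩)⟩
  obtain ⟨I, hI1, hI2, ri, ci, hsub, hcard⟩ := hHard (PowerSeries k) m n (LL m n) (m * n)
    ⟨0, by omega⟩ hm1 hn1 (cond_rY hm2 hnm) (cond_rZ hm2 hnm) hpow
  have hlow := @hRL _ _ _ _ _ _ k _ _ R' _ _ _ _ I hI1 hI2 ri ci hsub
  have hcY : Fintype.card (Fin (aa m) × Fin n × Fin n) = aa m * n * n := by
    simp [Fintype.card_prod, Fintype.card_fin, mul_assoc]
  have hcZ : Fintype.card (Fin m × Fin n × Fin n) = m * n * n := by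
    simp [Fintype.card_prod, Fintype.card_fin, mul_assoc]
  have hupp := hRk _ _ (LaurentSeries k) (alp n) (√2 * alp n) _ _ (LL m n) (m * n) (aa m) m
    (by have := aa_pos hm1; omega)
    (by
      have := exp_cond1 hm2 hnm
      rw [hcY]; push_cast; exact this)
    (by
      have := cond_be (m := m) (n := n)
      rw [hcZ, mul_assoc]; push_cast at this ⊢; exact this) hBB
  rw [hcY, hcZ] at hupp
  refine num_contra hG2 m n hm hn B (rd G (2 * Δ)).1 (rd G (2 * Δ)).2 hB1 hcon hsg hlm0 hlm ?_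
  refine hcard.trans ((Nat.cast_le.mpr hlow).trans (hupp.trans (le_of_eq ?_)))
  push_cast
  ring

/-- The bound for every `M`. -/
theorem main_final (hPM : S_PermWalk) (hHard : S_Hard) (hPW : S_PWhom) (hHom : S_BiHom)
    (hRL : S_RankLow) (hRk : S_BBrank) (hG2 : S_Grow2) (hCk : S_Ckt) (hCS : S_CktSubst)
    (hTr : S_Transl) (hTT : S_TransTop) (hRd : S_RdBound)
    (k : Type) [Field k] [CharZero k] (M Δ s e r : ℕ) (hs : 1 ≤ s)
    (F : Fin s → MvPolynomial (Fin M × Fin M) (LaurentSeries k)) (d : Fin s → ℕ)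
    (R : MvPolynomial (Fin M × Fin M) (PowerSeries k))
    (hF : IsCkt e r F d) (hd : ∀ i, d i ≤ Δ) (i0 : Fin s)
    (hi0 : F i0 = MvPolynomial.map (algebraMap (PowerSeries k) (LaurentSeries k))
      (permP (PowerSeries k) M + C PowerSeries.X * R)) :
    (M : ℝ) ≤ (10 ^ 4 * (Real.log (s + 1) + e + r)) ^ (33 * 81 ^ Δ) := by
  obtain ⟨G, hG⟩ : ∃ G, G = Real.log (s + 1) + ((e * 3 : ℕ) : ℝ) + r + 1 := ⟨_, rfl⟩
  have hsR : (1 : ℝ) ≤ s := by exact_mod_cast hs
  have hlog : (69 / 100 : ℝ) ≤ Real.log ((s : ℝ) + 1) := by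
    have h1 : Real.log 2 ≤ Real.log ((s : ℝ) + 1) := Real.log_le_log (by norm_num) (by linarith)
    have h2 := Real.log_two_gt_d9
    linarith
  have he0 : (0 : ℝ) ≤ e := by positivity
  have hr0 : (0 : ℝ) ≤ r := by positivity
  have hG1 : 1 ≤ G := by
    rw [hG]
    have h2 : (0 : ℝ) ≤ ((e * 3 : ℕ) : ℝ) := by positivity
    linarith
  have hGX : 3202 * G ≤ 10 ^ 4 * (Real.log (s + 1) + e + r) := by
    rw [hG]; push_cast
    linarith
  have hq : (1 : ℕ) ≤ 81 ^ Δ := Nat.one_le_pow _ _ (by norm_num)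
  -- the integer `m`
  obtain ⟨m, hm⟩ : ∃ m : ℕ, m = ⌊(M : ℝ) ^ ((1 : ℝ) / 11)⌋₊ := ⟨_, rfl⟩
  have hMp : (0 : ℝ) ≤ (M : ℝ) ^ ((1 : ℝ) / 11) := by positivity
  have hm1 : (m : ℝ) ≤ (M : ℝ) ^ ((1 : ℝ) / 11) := by rw [hm]; exact Nat.floor_le hMp
  have hm2 : (M : ℝ) ^ ((1 : ℝ) / 11) < m + 1 := by rw [hm]; exact Nat.lt_floor_add_one _
  have hM11 : ((M : ℝ) ^ ((1 : ℝ) / 11)) ^ 11 = M := by
    rw [← Real.rpow_natCast, ← Real.rpow_mul (by positivity)]
    norm_num
  have hMle : (m : ℝ) ^ 11 ≤ M := by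
    rw [← hM11]; exact pow_le_pow_left₀ (by positivity) hm1 11
  have hMlt : (M : ℝ) ≤ ((m : ℝ) + 1) ^ 11 := by
    rw [← hM11]; exact pow_le_pow_left₀ hMp hm2.le 11
  have hMle' : m ^ 11 ≤ M := by exact_mod_cast hMle
  have hkey : (m : ℝ) + 1 ≤ (3202 * G) ^ (3 * 81 ^ Δ) := by
    by_cases h3 : 30000 ≤ m
    · have hMm : (m - 1) * m ^ 10 + 1 ≤ M := by
        refine le_trans ?_ hMle'
        obtain ⟨q, rfl⟩ : ∃ q, m = q + 1 := ⟨m - 1, by omega⟩
        have : (q + 1) ^ 11 = q * (q + 1) ^ 10 + (q + 1) ^ 10 := by ring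
        rw [this, Nat.add_sub_cancel]
        have : 1 ≤ (q + 1) ^ 10 := Nat.one_le_pow _ _ (by omega)
        omega
      have h4 := main_ineq hPM hHard hPW hHom hRL hRk hG2 hCk hCS hTr hTT hRd k M Δ s e r m F d R
        hF hd i0 hi0 h3 hMm G hG
      have h5 : (9 : ℕ) ^ (2 * Δ) = 81 ^ Δ := by rw [pow_mul]; norm_num
      rw [h5, ← pow_mul, mul_comm (81 ^ Δ) 3] at h4
      have h6 : (1 : ℝ) ≤ (1601 * G) ^ (3 * 81 ^ Δ) := one_le_pow₀ (by linarith)
      have h7 : (3202 * G) ^ (3 * 81 ^ Δ) = 2 ^ (3 * 81 ^ Δ) * (1601 * G) ^ (3 * 81 ^ Δ) := by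
        rw [← mul_pow]; congr 1; ring
      have h8 : (2 : ℝ) ≤ 2 ^ (3 * 81 ^ Δ) := by
        calc (2 : ℝ) = 2 ^ 1 := by norm_num
          _ ≤ 2 ^ (3 * 81 ^ Δ) := pow_le_pow_right₀ (by norm_num) (by omega)
      rw [h7]
      nlinarith
    · have h4 : (m : ℝ) + 1 ≤ 30000 := by
        have : m + 1 ≤ 30000 := by omega
        exact_mod_cast this
      refine h4.trans ?_
      calc (30000 : ℝ) ≤ 3202 ^ 3 := by norm_num
        _ ≤ (3202 * G) ^ 3 := pow_le_pow_left₀ (by norm_num) (by linarith) 3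
        _ ≤ (3202 * G) ^ (3 * 81 ^ Δ) := pow_le_pow_right₀ (by linarith) (by omega)
  calc (M : ℝ) ≤ ((m : ℝ) + 1) ^ 11 := hMlt
    _ ≤ ((3202 * G) ^ (3 * 81 ^ Δ)) ^ 11 := pow_le_pow_left₀ (by positivity) hkey 11
    _ = (3202 * G) ^ (33 * 81 ^ Δ) := by rw [← pow_mul]; congr 1; ring
    _ ≤ _ := pow_le_pow_left₀ (by linarith) hGX _

end Pool.Agent.Work.MP_499dc6_lc.CD
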