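import Mathlib

/-!
# Constant depth circuits for the permanent: definitions

The two sided shift. Monomials in the variables `Y` act on `K[eta]` by contraction, monomials in
`Z` act on `K[z]` by multiplication. `mat f p q p' q'` is the matrix of the resulting operator
from bidegree `(p, q)` to bidegree `(p', q')`.
-/

namespace Pool.Agent.Work.MP_499dc6_lc.CD

open MvPolynomial

/-- Number of monomials of degree `p` in `N` variables. -/
def TT (N p : ℕ) : ℕ := (N + p - 1).choose p

section Bi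

variable {Y Z : Type} [Fintype Y] [Fintype Z]

/-- Degree of a monomial in the variables `Y`. -/
def dY (m : Y ⊕ Z →₀ ℕ) : ℕ := ∑ i : Y, m (Sum.inl i)

/-- Degree of a monomial in the variables `Z`. -/
def dZ (m : Y ⊕ Z →₀ ℕ) : ℕ := ∑ j : Z, m (Sum.inr j)

/-- `f` is bihomogeneous of bidegree `(x, y)`. -/
def IsBi {R : Type} [CommSemiring R] (f : MvPolynomial (Y ⊕ Z) R) (x y : ℕ) : Prop :=
  ∀ m, coeff m f ≠ 0 → dY m = x ∧ dZ m = y

/-- Monomials of degree `p` in the variables `Y`. -/
abbrev Mon (Y : Type) [Fintype Y] [DecidableEq Y] (p : ℕ) : Type :=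
  ↥(Finset.finsuppAntidiag (Finset.univ : Finset Y) p)

variable [DecidableEq Y] [DecidableEq Z]

open Classical in
/-- Matrix of the operator of `f` (contraction in `Y`, multiplication in `Z`) from monomials
of bidegree `(p, q)` to monomials of bidegree `(p', q')`. -/
noncomputable def mat {R : Type} [CommSemiring R] (f : MvPolynomial (Y ⊕ Z) R)
    (p q p' q' : ℕ) : Matrix (Mon Y p' × Mon Z q') (Mon Y p × Mon Z q) R :=
  fun t s => if t.1.1 ≤ s.1.1 ∧ s.2.1 ≤ t.2.1 then
    coeff (Finsupp.sumElim (s.1.1 - t.1.1) (t.2.1 - s.2.1)) f else 0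

end Bi

/-- `BB al be f c`: `f` is a sum of products `g * h` of bihomogeneous polynomials with
`∑ exp ((exc h - exc g) / 2) ≤ c`, where bidegree `(u, v)` has excess `u al - v be`. -/
inductive BB {Y Z : Type} [Fintype Y] [Fintype Z] {K : Type} [Field K] (al be : ℝ) :
    MvPolynomial (Y ⊕ Z) K → ℝ → Prop
  | zero : BB al be 0 0
  | term {g h : MvPolynomial (Y ⊕ Z) K} {x y x' y' : ℕ} (hg : IsBi g x y) (hh : IsBi h x' y') :
      BB al be (g * h)
        (Real.exp ((((x' : ℝ) * al - y' * be) - ((x : ℝ) * al - y * be)) / 2))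
  | add {f f' : MvPolynomial (Y ⊕ Z) K} {c c' : ℝ} :
      BB al be f c → BB al be f' c' → BB al be (f + f') (c + c')
  | mono {f : MvPolynomial (Y ⊕ Z) K} {c c' : ℝ} : BB al be f c → c ≤ c' → BB al be f c'

/-- The trivial bound for homogeneous polynomials of degree `k`. -/
noncomputable def phi (al be : ℝ) (k : ℕ) : ℝ :=
  ∑ u ∈ Finset.range (k + 1), Real.exp (-(|(u : ℝ) * al - ((k : ℝ) - u) * be| / 2))

/-- Span of the products of the `v i` of total weight `k`. -/
noncomputable def PS (K : Type) [Field K] {A : Type} [CommRing A] [Algebra K A]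
    (v : ℕ → A) (k : ℕ) : Submodule K A :=
  Submodule.span K (Set.range fun P : Nat.Partition k => (P.parts.map v).prod)

/-- The recursion of the exponents: `(sg, lm)` goes to
`(G + 16 / l ^ 2, l / 2)` with `l = lm ^ 2 / (4 sg ^ 2)`. -/
noncomputable def rc (G : ℝ) : ℕ → ℝ × ℝ
  | 0 => (G, 1)
  | j + 1 =>
    (G + 16 / ((rc G j).2 ^ 2 / (4 * (rc G j).1 ^ 2)) ^ 2,
      ((rc G j).2 ^ 2 / (4 * (rc G j).1 ^ 2)) / 2)

/-- Circuits with `s` gates. Gate `i` is either a polynomial of degree at most `e` plus a linear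
combination of any number of earlier gates of level at most `d i`, or a product of powers of
earlier gates of level smaller than `d i`. So `d i` bounds the product depth of the gate. -/
def IsCircuit {K σ : Type} [Field K] {s : ℕ} (e : ℕ) (F : Fin s → MvPolynomial σ K)
    (d : Fin s → ℕ) : Prop :=
  ∀ i, (∃ (l : MvPolynomial σ K) (c : Fin s → K), l.totalDegree ≤ e ∧
      (∀ j, c j ≠ 0 → j < i ∧ d j ≤ d i) ∧ F i = l + ∑ j, C (c j) * F j) ∨
    (∃ k : Fin s → ℕ, (∀ j, k j ≠ 0 → j < i ∧ d j < d i) ∧ F i = ∏ j, F j ^ k j)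

/-- Closed walks `z0 = s_0, s_1, ..., s_m = z0` in `Fin n`. -/
abbrev Walk (m n : ℕ) (z0 : Fin n) : Type :=
  {s : Fin (m + 1) → Fin n // s 0 = z0 ∧ s (Fin.last m) = z0}

/-- Number of `Y` positions. -/
noncomputable def aa (m : ℕ) : ℕ := ⌈√2 * m⌉₊

/-- Step of the `Y` position `t`. -/
noncomputable def tau (m : ℕ) (t : Fin (aa m)) : ℕ := ⌊(t : ℝ) / √2⌋₊

/-- The hard polynomial: sum over all closed walks. The step `i` from `s_i` to `s_(i+1)` reads one
variable of `Z = Fin m × Fin n × Fin n` and the variables of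
`Y = Fin (aa m) × Fin n × Fin n` at the positions `t` with `tau t = i`. -/
noncomputable def PW (R : Type) [CommSemiring R] (m n : ℕ) (z0 : Fin n) :
    MvPolynomial ((Fin (aa m) × Fin n × Fin n) ⊕ (Fin m × Fin n × Fin n)) R :=
  ∑ s : Walk m n z0, ∏ i : Fin m,
    (X (Sum.inr (i, s.1 i.castSucc, s.1 i.succ)) *
      ∏ t ∈ Finset.univ.filter (fun t : Fin (aa m) => tau m t = i),
        X (Sum.inl (t, s.1 i.castSucc, s.1 i.succ)))

end Pool.Agent.Work.MP_499dc6_lc.CD
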