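import Pool.Agent.Work.MP_499dc6_lc.CD.Stmts

/-!
# MP_499dc6_lc, CD: the recursion `rc` (helper85)
-/

namespace Pool.Agent.Work.MP_499dc6_lc.CD

theorem Rc_aux (G sg lm B : ℝ) (hG : 1 ≤ G) (hGs : G ≤ sg) (hl0 : 0 < lm) (hl1 : lm ≤ 1)
    (h1 : 257 * sg ≤ B) (h2 : 257 / lm ≤ B) :
    G ≤ G + 16 / (lm ^ 2 / (4 * sg ^ 2)) ^ 2 ∧ 0 < lm ^ 2 / (4 * sg ^ 2) / 2 ∧
    lm ^ 2 / (4 * sg ^ 2) / 2 ≤ 1 ∧
    257 * (G + 16 / (lm ^ 2 / (4 * sg ^ 2)) ^ 2) ≤ B ^ 8 ∧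
    257 / (lm ^ 2 / (4 * sg ^ 2) / 2) ≤ B ^ 8 := by
  have hs1 : 1 ≤ sg := hG.trans hGs
  have hs0 : 0 < sg := by linarith
  obtain ⟨M, hM⟩ : ∃ M, M = B / 257 := ⟨_, rfl⟩
  have hB : B = 257 * M := by rw [hM]; ring
  have hM1 : sg ≤ M := by rw [hM, le_div_iff₀ (by norm_num)]; linarith
  have hM2 : 1 / lm ≤ M := by
    rw [hM, le_div_iff₀ (by norm_num)]
    calc 1 / lm * 257 = 257 / lm := by ring
      _ ≤ B := h2
  have hMp : 1 ≤ M := hs1.trans hM1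
  have e1 : 16 / (lm ^ 2 / (4 * sg ^ 2)) ^ 2 = 256 * (sg ^ 4 * (1 / lm) ^ 4) := by
    field_simp
    ring
  have e2 : 257 / (lm ^ 2 / (4 * sg ^ 2) / 2) = 257 * (8 * (sg ^ 2 * (1 / lm) ^ 2)) := by
    field_simp
    ring
  have q1 : sg ^ 4 * (1 / lm) ^ 4 ≤ M ^ 4 * M ^ 4 := by gcongr
  have q2 : sg ^ 2 * (1 / lm) ^ 2 ≤ M ^ 2 * M ^ 2 := by gcongr
  have q3 : M ^ 4 ≤ M ^ 8 := pow_le_pow_right₀ hMp (by norm_num)
  have q4 : M ≤ M ^ 8 := le_self_pow₀ hMp (by norm_num)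
  have q5 : 0 < M ^ 8 := by positivity
  refine ⟨?_, by positivity, ?_, ?_, ?_⟩
  · have : 0 ≤ 16 / (lm ^ 2 / (4 * sg ^ 2)) ^ 2 := by positivity
    linarith
  · have k1 : lm ^ 2 ≤ 1 := pow_le_one₀ hl0.le hl1
    have k2 : 1 ≤ sg ^ 2 := one_le_pow₀ hs1
    rw [div_div, div_le_one (by positivity)]
    linarith
  · rw [e1, hB]
    have : (257 * M) ^ 8 = 257 ^ 8 * M ^ 8 := by ring
    rw [this]
    have k3 : G ≤ M ^ 8 := hGs.trans (hM1.trans q4)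
    have k4 : M ^ 4 * M ^ 4 = M ^ 8 := by ring
    nlinarith
  · rw [e2, hB]
    have : (257 * M) ^ 8 = 257 ^ 8 * M ^ 8 := by ring
    rw [this]
    have k4 : M ^ 2 * M ^ 2 = M ^ 4 := by ring
    nlinarith

theorem Rc_all (G : ℝ) (hG : 1 ≤ G) (j : ℕ) : G ≤ (rc G j).1 ∧ 0 < (rc G j).2 ∧
    (rc G j).2 ≤ 1 ∧ 257 * (rc G j).1 ≤ (257 * G) ^ (8 ^ j) ∧
    257 / (rc G j).2 ≤ (257 * G) ^ (8 ^ j) := by
  induction j with
  | zero =>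
    simp only [rc, pow_zero, pow_one]
    refine ⟨le_rfl, one_pos, le_rfl, le_rfl, ?_⟩
    linarith
  | succ j ih =>
    obtain ⟨i1, i2, i3, i4, i5⟩ := ih
    have h := Rc_aux G (rc G j).1 (rc G j).2 _ hG i1 i2 i3 i4 i5
    have e : (257 * G) ^ (8 ^ (j + 1)) = ((257 * G) ^ (8 ^ j)) ^ 8 := by
      rw [← pow_mul, pow_succ]
    rw [e]
    exact h

theorem pr_RcBound : S_RcBound := by
  intro G j hG
  obtain ⟨i1, i2, i3, i4, i5⟩ := Rc_all G hG j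
  refine ⟨i1, i2, i3, ?_, ?_⟩
  · linarith
  · have : 1 / (rc G j).2 ≤ 257 / (rc G j).2 := by
      gcongr
      norm_num
    exact this.trans i5

theorem Rc_step (G : ℝ) (hG : 1 ≤ G) (j : ℕ) : (rc G j).1 ≤ (rc G (j + 1)).1 ∧
    (rc G (j + 1)).2 ≤ (rc G j).2 := by
  have key : ∀ j, (rc G (j + 1)).2 ≤ (rc G j).2 := by
    intro j
    obtain ⟨i1, i2, i3, -, -⟩ := Rc_all G hG j
    have hs1 : 1 ≤ (rc G j).1 := hG.trans i1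
    change (rc G j).2 ^ 2 / (4 * (rc G j).1 ^ 2) / 2 ≤ (rc G j).2
    have k2 : 1 ≤ (rc G j).1 ^ 2 := one_le_pow₀ hs1
    rw [div_div, div_le_iff₀ (by positivity)]
    nlinarith [mul_pos i2 i2]
  refine ⟨?_, key j⟩
  induction j with
  | zero =>
    change G ≤ _
    exact (Rc_all G hG 1).1
  | succ j ih =>
    obtain ⟨i1, i2, i3, -, -⟩ := Rc_all G hG j
    obtain ⟨p1, p2, p3, -, -⟩ := Rc_all G hG (j + 1)
    have hk := key j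
    have hs1 : 1 ≤ (rc G j).1 := hG.trans i1
    have hs2 : 1 ≤ (rc G (j + 1)).1 := hG.trans p1
    change G + 16 / ((rc G j).2 ^ 2 / (4 * (rc G j).1 ^ 2)) ^ 2 ≤
      G + 16 / ((rc G (j + 1)).2 ^ 2 / (4 * (rc G (j + 1)).1 ^ 2)) ^ 2
    have h1 : (rc G (j + 1)).2 ^ 2 / (4 * (rc G (j + 1)).1 ^ 2) ≤
        (rc G j).2 ^ 2 / (4 * (rc G j).1 ^ 2) := by
      gcongr
    have h2 : 0 < (rc G (j + 1)).2 ^ 2 / (4 * (rc G (j + 1)).1 ^ 2) := by positivity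
    gcongr

theorem pr_RcMono : S_RcMono := by
  intro G i j hG hij
  have h1 : Monotone fun j => (rc G j).1 := monotone_nat_of_le_succ fun j => (Rc_step G hG j).1
  have h2 : Antitone fun j => (rc G j).2 := antitone_nat_of_succ_le fun j => (Rc_step G hG j).2
  exact ⟨h1 hij, h2 hij⟩

end Pool.Agent.Work.MP_499dc6_lc.CD
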